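import Pool.Agent.Work.MP_b41eab_h9.Small

/-!
# Shelah groups: words of length 5 in centreless groups with small centralisers
-/

set_option autoImplicit false

open Cardinal

universe u

namespace Pool.Shelah

variable {G : Type u} [Group G]

/-- large sets have trivial centraliser -/
def NoCent (G : Type u) [Group G] : Prop :=
  ∀ S : Set G, ¬ Small S → ∀ c : G, (∀ x ∈ S, c * x = x * c) → c = 1

lemma s1 (hreg : (Cardinal.mk G).IsRegular) (a b g : G) : Small {x : G | a * x * b = g} := by
  refine small_subsingleton hreg ?_
  intro x hx y hy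
  have hx' : a * x * b = g := hx
  have hy' : a * y * b = g := hy
  have : a * x * b = a * y * b := by rw [hx', hy']
  simpa using this

lemma t1 (hc : NoCent G) (m : ℕ) {c : G} (h : c ≠ 1) : Small {x : G | x ^ m = c} := by
  by_contra hs
  refine h (hc _ hs c fun x hx => ?_)
  have hx' : x ^ m = c := hx
  rw [← hx']; exact (pow_succ x m).symm.trans (pow_succ' x m)

lemma t2 (hc : NoCent G) {a : G} (ha : a ≠ 1) (b : G) : Small {x : G | x * a * x⁻¹ = b} := by
  by_contra hs
  have hne : ({x : G | x * a * x⁻¹ = b}).Nonempty := by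
    by_contra h
    rw [Set.not_nonempty_iff_eq_empty] at h
    apply hs
    rw [h]
    have h0 : Cardinal.mk (∅ : Set G) = 0 := Cardinal.mk_eq_zero _
    show Cardinal.mk (∅ : Set G) < Cardinal.mk G
    rw [h0]
    exact pos_iff_ne_zero.2 (Cardinal.mk_ne_zero G)
  obtain ⟨x0, hx0⟩ := hne
  have hx0' : x0 * a * x0⁻¹ = b := hx0
  refine ha (hc ((fun y => x0 * y) ⁻¹' {x : G | x * a * x⁻¹ = b}) ?_ a ?_)
  · intro h
    apply hs
    refine small_of_injOn h (fun x => x0⁻¹ * x) (fun x _ y _ h => by simpa using h) ?_
    intro x hx
    show x0 * (x0⁻¹ * x) ∈ {x : G | x * a * x⁻¹ = b}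
    rw [mul_inv_cancel_left]; exact hx
  · intro y hy
    have hy' : x0 * y * a * (x0 * y)⁻¹ = b := hy
    have h1 : x0 * y * a * (x0 * y)⁻¹ = x0 * a * x0⁻¹ := by rw [hy', hx0']
    have h2 : y * a * y⁻¹ = a := by
      have : x0 * (y * a * y⁻¹) * x0⁻¹ = x0 * a * x0⁻¹ := by rw [← h1]; group
      simpa using this
    calc a * y = y * a * y⁻¹ * y := by rw [h2]
      _ = y * a := by group

/-- the conjugation the other way -/
lemma t2' (hc : NoCent G) {a : G} (ha : a ≠ 1) (b : G) : Small {x : G | x⁻¹ * a * x = b} := by
  refine small_of_injOn (t2 hc ha b) (fun x => x⁻¹) (fun x _ y _ h => by simpa using h) ?_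
  intro x hx
  have hx' : x⁻¹ * a * x = b := hx
  show x⁻¹ * a * x⁻¹⁻¹ = b
  rw [inv_inv]; exact hx'

lemma s2 (hsq : ∀ d : G, Small {y : G | y * y = d}) (a b c g : G) :
    Small {x : G | a * x * b * x * c = g} := by
  refine small_of_injOn (hsq (a⁻¹ * g * c⁻¹ * b)) (fun x => x * b) (fun x _ y _ h => by simpa using h) ?_
  intro x hx
  have hx' : a * x * b * x * c = g := hx
  show x * b * (x * b) = a⁻¹ * g * c⁻¹ * b
  rw [← hx']; group

/-- exponent 5, no large equation with three occurrences -/
theorem caseIIb2 (hreg : (Cardinal.mk G).IsRegular) (h5 : ∀ x : G, x * x * x * x * x = 1)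
    (hno : ∀ u v c : G, Small {x : G | x * u * x * v * x = c}) {g : G} (hg : g ≠ 1) :
    ∃ A : Set G, Cardinal.mk A = Cardinal.mk G ∧
      ∀ l : List G, l.length = 5 → (∀ y ∈ l, y ∈ A) → l.prod ≠ g := by
  have hsq : ∀ d : G, Small {y : G | y * y = d} := by
    intro d
    refine small_subsingleton hreg ?_
    intro x (hx : x * x = d) y (hy : y * y = d)
    have e1 : x = d * d * d := by
      rw [← hx]
      calc x = (x * x * x * x * x) * x := by rw [h5]; group
        _ = _ := by group
    have e2 : y = d * d * d := by
      rw [← hy]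
      calc y = (y * y * y * y * y) * y := by rw [h5]; group
        _ = _ := by group
    rw [e1, e2]
  have s3 : ∀ a b c d g : G, Small {x : G | a * x * b * x * c * x * d = g} := by
    intro a b c d g
    refine (hno b c (a⁻¹ * g * d⁻¹)).mono ?_
    intro x (hx : a * x * b * x * c * x * d = g)
    show x * b * x * c * x = a⁻¹ * g * d⁻¹
    rw [← hx]; group
  have hinv : ∀ x : G, x⁻¹ = x * x * x * x := fun x =>
    inv_eq_of_mul_eq_one_left (h5 x)
  obtain ⟨A, hA, -, h⟩ := greedy hreg (Set.univ : Set G) (by
      unfold Small; rw [Cardinal.mk_univ]; exact lt_irrefl _) [(5, g)] (by simp) (by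
    intro A _ hInv q hq l hl hn hA
    simp only [List.mem_singleton] at hq
    subst hq
    simp only at hl ⊢
    match l, hl, hn, hA with
    | [some a, some b, some c, some d, none], _, _, _ =>
      exact (s1 hreg (a * b * c * d) 1 g).mono fun x hx => by simpa [ev, mul_assoc] using hx
    | [some a, some b, some c, none, some d], _, _, _ =>
      exact (s1 hreg (a * b * c) d g).mono fun x hx => by simpa [ev, mul_assoc] using hx
    | [some a, some b, none, some c, some d], _, _, _ =>
      exact (s1 hreg (a * b) (c * d) g).mono fun x hx => by simpa [ev, mul_assoc] using hx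
    | [some a, none, some b, some c, some d], _, _, _ =>
      exact (s1 hreg a (b * c * d) g).mono fun x hx => by simpa [ev, mul_assoc] using hx
    | [none, some a, some b, some c, some d], _, _, _ =>
      exact (s1 hreg 1 (a * b * c * d) g).mono fun x hx => by simpa [ev, mul_assoc] using hx
    | [none, none, some a, some b, some c], _, _, _ =>
      exact (s2 hsq 1 1 (a * b * c) g).mono fun x hx => by simpa [ev, mul_assoc] using hx
    | [none, some a, none, some b, some c], _, _, _ =>
      exact (s2 hsq 1 a (b * c) g).mono fun x hx => by simpa [ev, mul_assoc] using hx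
    | [none, some a, some b, none, some c], _, _, _ =>
      exact (s2 hsq 1 (a * b) c g).mono fun x hx => by simpa [ev, mul_assoc] using hx
    | [none, some a, some b, some c, none], _, _, _ =>
      exact (s2 hsq 1 (a * b * c) 1 g).mono fun x hx => by simpa [ev, mul_assoc] using hx
    | [some a, none, none, some b, some c], _, _, _ =>
      exact (s2 hsq a 1 (b * c) g).mono fun x hx => by simpa [ev, mul_assoc] using hx
    | [some a, none, some b, none, some c], _, _, _ =>
      exact (s2 hsq a b c g).mono fun x hx => by simpa [ev, mul_assoc] using hx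
    | [some a, none, some b, some c, none], _, _, _ =>
      exact (s2 hsq a (b * c) 1 g).mono fun x hx => by simpa [ev, mul_assoc] using hx
    | [some a, some b, none, none, some c], _, _, _ =>
      exact (s2 hsq (a * b) 1 c g).mono fun x hx => by simpa [ev, mul_assoc] using hx
    | [some a, some b, none, some c, none], _, _, _ =>
      exact (s2 hsq (a * b) c 1 g).mono fun x hx => by simpa [ev, mul_assoc] using hx
    | [some a, some b, some c, none, none], _, _, _ =>
      exact (s2 hsq (a * b * c) 1 1 g).mono fun x hx => by simpa [ev, mul_assoc] using hx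
    | [none, none, none, some a, some b], _, _, _ =>
      exact (s3 1 1 1 (a * b) g).mono fun x hx => by simpa [ev, mul_assoc] using hx
    | [none, none, some a, none, some b], _, _, _ =>
      exact (s3 1 1 a b g).mono fun x hx => by simpa [ev, mul_assoc] using hx
    | [none, none, some a, some b, none], _, _, _ =>
      exact (s3 1 1 (a * b) 1 g).mono fun x hx => by simpa [ev, mul_assoc] using hx
    | [none, some a, none, none, some b], _, _, _ =>
      exact (s3 1 a 1 b g).mono fun x hx => by simpa [ev, mul_assoc] using hx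
    | [none, some a, none, some b, none], _, _, _ =>
      exact (s3 1 a b 1 g).mono fun x hx => by simpa [ev, mul_assoc] using hx
    | [none, some a, some b, none, none], _, _, _ =>
      exact (s3 1 (a * b) 1 1 g).mono fun x hx => by simpa [ev, mul_assoc] using hx
    | [some a, none, none, none, some b], _, _, _ =>
      exact (s3 a 1 1 b g).mono fun x hx => by simpa [ev, mul_assoc] using hx
    | [some a, none, none, some b, none], _, _, _ =>
      exact (s3 a 1 b 1 g).mono fun x hx => by simpa [ev, mul_assoc] using hx
    | [some a, none, some b, none, none], _, _, _ =>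
      exact (s3 a b 1 1 g).mono fun x hx => by simpa [ev, mul_assoc] using hx
    | [some a, some b, none, none, none], _, _, _ =>
      exact (s3 (a * b) 1 1 1 g).mono fun x hx => by simpa [ev, mul_assoc] using hx
    | [none, none, none, none, some a], _, _, _ =>
      refine small_subsingleton hreg ?_
      have key : ∀ x : G, x * (x * (x * (x * a))) = g → x = a * g⁻¹ := by
        intro x hx
        have : x⁻¹ = g * a⁻¹ := by rw [hinv, ← hx]; group
        rw [← inv_inv x, this]; group
      intro x hx y hy
      simp [ev] at hx hy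
      rw [key x hx, key y hy]
    | [some a, none, none, none, none], _, _, _ =>
      refine small_subsingleton hreg ?_
      have key : ∀ x : G, a * (x * (x * (x * x))) = g → x = g⁻¹ * a := by
        intro x hx
        have : x⁻¹ = a⁻¹ * g := by rw [hinv, ← hx]; group
        rw [← inv_inv x, this]; group
      intro x hx y hy
      simp [ev] at hx hy
      rw [key x hx, key y hy]
    | [none, none, none, some a, none], _, _, _ =>
      refine (hno a (g⁻¹ * a) g).mono fun x hx => ?_
      have hx' : x * x * x * a * x = g := by simpa [ev, mul_assoc] using hx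
      show x * a * x * (g⁻¹ * a) * x = g
      have h3 : x * x * x = g * x⁻¹ * a⁻¹ := by rw [← hx']; group
      have h6 : x * a * x = x * x * x * g := by
        have : (x * x * x) * (a * x) = (x * x * x) * (x * x * g) := by
          calc (x * x * x) * (a * x) = g := by rw [← hx']; group
            _ = (x * x * x * x * x) * g := by rw [h5, one_mul]
            _ = _ := by group
        have h7 : a * x = x * x * g := mul_left_cancel this
        calc x * a * x = x * (a * x) := by group
          _ = x * (x * x * g) := by rw [h7]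
          _ = _ := by group
      calc x * a * x * (g⁻¹ * a) * x = x * x * x * g * (g⁻¹ * a) * x := by rw [h6]
        _ = x * x * x * a * x := by group
        _ = g := hx'
    | [none, some a, none, none, none], _, _, _ =>
      refine (hno (a * g⁻¹) a g).mono fun x hx => ?_
      have hx' : x * a * (x * x * x) = g := by simpa [ev, mul_assoc] using hx
      show x * (a * g⁻¹) * x * a * x = g
      have h6 : x * a * x = g * (x * x * x) := by
        have : (x * a) * (x * x * x) = (g * (x * x)) * (x * x * x) := by
          calc (x * a) * (x * x * x) = g := hx'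
            _ = g * (x * x * x * x * x) := by rw [h5, mul_one]
            _ = _ := by group
        have h7 : x * a = g * (x * x) := mul_right_cancel this
        calc x * a * x = g * (x * x) * x := by rw [h7]
          _ = _ := by group
      calc x * (a * g⁻¹) * x * a * x = x * a * g⁻¹ * (x * a * x) := by group
        _ = x * a * g⁻¹ * (g * (x * x * x)) := by rw [h6]
        _ = x * a * (x * x * x) := by group
        _ = g := hx'
    | [none, none, some a, none, none], _, _, _ =>
      refine small_of_injOn (hsq (g * a)) (fun x => x * x * a) ?_ ?_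
      · intro x _ y _ hxy
        have : x * x = y * y := by simpa using hxy
        calc x = (x * x) * (x * x) * (x * x) := by
                calc x = (x * x * x * x * x) * x := by rw [h5]; group
                  _ = _ := by group
          _ = (y * y) * (y * y) * (y * y) := by rw [this]
          _ = (y * y * y * y * y) * y := by group
          _ = y := by rw [h5]; group
      · intro x hx
        have hx' : x * x * a * x * x = g := by simpa [ev, mul_assoc] using hx
        show x * x * a * (x * x * a) = g * a
        rw [← hx']; group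
    | [none, none, none, none, none], _, _, _ =>
      refine (small_of_finite hreg Set.finite_empty).mono fun x hx => ?_
      simp [ev] at hx
      exact hg (by rw [← hx, ← h5 x]; group)
    | [some a, some b, some c, some d, some e], _, hn, _ => simp at hn)
  exact ⟨A, hA, fun l hl hm => h (5, g) (by simp) l hl hm⟩

/-- exponent 5, a large equation with three occurrences, normal form `x x w x = c` -/
theorem caseIIb1 (hreg : (Cardinal.mk G).IsRegular) (hc : NoCent G)
    (h5 : ∀ x : G, x * x * x * x * x = 1) {w c : G} (hc1 : c ≠ 1)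
    (hS : ¬ Small {x : G | x * x * w * x = c}) :
    ∃ A : Set G, Cardinal.mk A = Cardinal.mk G ∧
      ∀ l : List G, l.length = 5 → (∀ y ∈ l, y ∈ A) → l.prod ≠ c := by
  have hsq : ∀ d : G, Small {y : G | y * y = d} := by
    intro d
    refine small_subsingleton hreg ?_
    intro x (hx : x * x = d) y (hy : y * y = d)
    have e1 : x = d * d * d := by
      rw [← hx]
      calc x = (x * x * x * x * x) * x := by rw [h5]; group
        _ = _ := by group
    have e2 : y = d * d * d := by
      rw [← hy]
      calc y = (y * y * y * y * y) * y := by rw [h5]; group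
        _ = _ := by group
    rw [e1, e2]
  have h3 : ∀ a b g : G, Small {x : G | a * (x * x * x) * b = g} := by
    intro a b g
    refine small_subsingleton hreg ?_
    have key : ∀ x : G, a * (x * x * x) * b = g →
        x = (a⁻¹ * g * b⁻¹) * (a⁻¹ * g * b⁻¹) := by
      intro x hx
      rw [← hx]
      calc x = (x * x * x * x * x) * x := by rw [h5]; group
        _ = _ := by group
    intro x (hx : a * (x * x * x) * b = g) y (hy : a * (y * y * y) * b = g)
    rw [key x hx, key y hy]
  -- the consequences of membership
  have q1 : ∀ x : G, x * x * w * x = c → x * x = c * x⁻¹ * w⁻¹ := by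
    intro x hx; rw [← hx]; group
  have q2 : ∀ x : G, x * x * w * x = c → x * x * x = w * x * c⁻¹ := by
    intro x hx
    have e : (x * x) * (x * x * x) = (x * x) * (w * x * c⁻¹) := by
      calc (x * x) * (x * x * x) = x * x * x * x * x := by group
        _ = 1 := h5 x
        _ = (x * x * w * x) * c⁻¹ := by rw [hx]; group
        _ = _ := by group
    exact mul_left_cancel e
  obtain ⟨A, hA, hAP, h⟩ := greedy hreg {x : G | x * x * w * x = c} hS
    [(1, 1), (1, w), (1, c⁻¹), (2, w), (2, c⁻¹), (5, c)] (by simp) (by
    intro A hAP hInv q hq l hl hn hA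
    have i1 : ∀ a ∈ A, a ≠ 1 := fun a ha =>
      by simpa using hInv (1, 1) (by simp) [a] rfl (by simpa using ha)
    have i2 : ∀ a ∈ A, a ≠ w := fun a ha =>
      by simpa using hInv (1, w) (by simp) [a] rfl (by simpa using ha)
    have i3 : ∀ a ∈ A, a ≠ c⁻¹ := fun a ha =>
      by simpa using hInv (1, c⁻¹) (by simp) [a] rfl (by simpa using ha)
    have i4 : ∀ a ∈ A, ∀ b ∈ A, a * b ≠ w := fun a ha b hb =>
      by simpa using hInv (2, w) (by simp) [a, b] rfl (by simp [ha, hb])
    have i5 : ∀ a ∈ A, ∀ b ∈ A, a * b ≠ c⁻¹ := fun a ha b hb =>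
      by simpa using hInv (2, c⁻¹) (by simp) [a, b] rfl (by simp [ha, hb])
    have len1 : ∀ v : G, ∀ l : List (Option G), l.length = 1 → none ∈ l →
        Small {x | x ∈ {x : G | x * x * w * x = c} ∧ (ev x l).prod = v} := by
      intro v l hl hn
      match l, hl, hn with
      | [none], _, _ => exact (s1 hreg 1 1 v).mono fun x hx => by simpa [ev] using hx.2
      | [some a], _, hn => simp at hn
    have len2 : ∀ v : G, ∀ l : List (Option G), l.length = 2 → none ∈ l →
        Small {x | x ∈ {x : G | x * x * w * x = c} ∧ (ev x l).prod = v} := by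
      intro v l hl hn
      match l, hl, hn with
      | [none, some a], _, _ => exact (s1 hreg 1 a v).mono fun x hx => by simpa [ev] using hx.2
      | [some a, none], _, _ => exact (s1 hreg a 1 v).mono fun x hx => by simpa [ev] using hx.2
      | [none, none], _, _ => exact (hsq v).mono fun x hx => by simpa [ev] using hx.2
      | [some a, some b], _, hn => simp at hn
    simp only [List.mem_cons, List.not_mem_nil, or_false] at hq
    rcases hq with rfl | rfl | rfl | rfl | rfl | rfl
    · exact len1 _ l hl hn
    · exact len1 _ l hl hn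
    · exact len1 _ l hl hn
    · exact len2 _ l hl hn
    · exact len2 _ l hl hn
    simp only at hl ⊢
    match l, hl, hn, hA with
    | [some a, some b, some e, some d, none], _, _, _ =>
      exact (s1 hreg (a * b * e * d) 1 c).mono fun x hx => by simpa [ev, mul_assoc] using hx.2
    | [some a, some b, some e, none, some d], _, _, _ =>
      exact (s1 hreg (a * b * e) d c).mono fun x hx => by simpa [ev, mul_assoc] using hx.2
    | [some a, some b, none, some e, some d], _, _, _ =>
      exact (s1 hreg (a * b) (e * d) c).mono fun x hx => by simpa [ev, mul_assoc] using hx.2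
    | [some a, none, some b, some e, some d], _, _, _ =>
      exact (s1 hreg a (b * e * d) c).mono fun x hx => by simpa [ev, mul_assoc] using hx.2
    | [none, some a, some b, some e, some d], _, _, _ =>
      exact (s1 hreg 1 (a * b * e * d) c).mono fun x hx => by simpa [ev, mul_assoc] using hx.2
    | [none, none, some a, some b, some d], _, _, _ =>
      exact (s2 hsq 1 1 (a * b * d) c).mono fun x hx => by simpa [ev, mul_assoc] using hx.2
    | [none, some a, none, some b, some d], _, _, _ =>
      exact (s2 hsq 1 a (b * d) c).mono fun x hx => by simpa [ev, mul_assoc] using hx.2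
    | [none, some a, some b, none, some d], _, _, _ =>
      exact (s2 hsq 1 (a * b) d c).mono fun x hx => by simpa [ev, mul_assoc] using hx.2
    | [none, some a, some b, some d, none], _, _, _ =>
      exact (s2 hsq 1 (a * b * d) 1 c).mono fun x hx => by simpa [ev, mul_assoc] using hx.2
    | [some a, none, none, some b, some d], _, _, _ =>
      exact (s2 hsq a 1 (b * d) c).mono fun x hx => by simpa [ev, mul_assoc] using hx.2
    | [some a, none, some b, none, some d], _, _, _ =>
      exact (s2 hsq a b d c).mono fun x hx => by simpa [ev, mul_assoc] using hx.2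
    | [some a, none, some b, some d, none], _, _, _ =>
      exact (s2 hsq a (b * d) 1 c).mono fun x hx => by simpa [ev, mul_assoc] using hx.2
    | [some a, some b, none, none, some d], _, _, _ =>
      exact (s2 hsq (a * b) 1 d c).mono fun x hx => by simpa [ev, mul_assoc] using hx.2
    | [some a, some b, none, some d, none], _, _, _ =>
      exact (s2 hsq (a * b) d 1 c).mono fun x hx => by simpa [ev, mul_assoc] using hx.2
    | [some a, some b, some d, none, none], _, _, _ =>
      exact (s2 hsq (a * b * d) 1 1 c).mono fun x hx => by simpa [ev, mul_assoc] using hx.2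
    -- three occurrences
    | [none, none, none, some a, some b], _, _, _ =>
      exact (h3 1 (a * b) c).mono fun x hx => by simpa [ev, mul_assoc] using hx.2
    | [some a, none, none, none, some b], _, _, _ =>
      exact (h3 a b c).mono fun x hx => by simpa [ev, mul_assoc] using hx.2
    | [some a, some b, none, none, none], _, _, _ =>
      exact (h3 (a * b) 1 c).mono fun x hx => by simpa [ev, mul_assoc] using hx.2
    | [none, none, some a, none, some b], _, _, hm =>
      have ha : a ∈ A := hm a (by simp)
      refine (t2' hc (a := w⁻¹ * a) ?_ (c⁻¹ * c * b⁻¹)).mono ?_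
      · intro h; exact i2 a ha (by rw [← mul_one w, ← h]; group)
      · rintro x ⟨hx, hx2⟩
        have hx' : x * x * a * x * b = c := by simpa [ev, mul_assoc] using hx2
        rw [q1 x hx] at hx'
        show x⁻¹ * (w⁻¹ * a) * x = c⁻¹ * c * b⁻¹
        have : c * (x⁻¹ * (w⁻¹ * a) * x) * b = c := by
          calc _ = c * x⁻¹ * w⁻¹ * a * x * b := by group
            _ = c := hx'
        calc x⁻¹ * (w⁻¹ * a) * x = c⁻¹ * (c * (x⁻¹ * (w⁻¹ * a) * x) * b) * b⁻¹ := by group
          _ = _ := by rw [this]
    | [some a, none, none, some b, none], _, _, hm =>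
      have hb : b ∈ A := hm b (by simp)
      refine (t2' hc (a := w⁻¹ * b) ?_ ((a * c)⁻¹ * c)).mono ?_
      · intro h; exact i2 b hb (by rw [← mul_one w, ← h]; group)
      · rintro x ⟨hx, hx2⟩
        have hx' : a * (x * x) * b * x = c := by simpa [ev, mul_assoc] using hx2
        rw [q1 x hx] at hx'
        show x⁻¹ * (w⁻¹ * b) * x = (a * c)⁻¹ * c
        rw [← mul_right_inj (a * c), mul_inv_cancel_left]
        calc _ = a * (c * x⁻¹ * w⁻¹) * b * x := by group
          _ = c := hx'
    | [none, none, some a, some b, none], _, _, hm =>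
      have ha : a ∈ A := hm a (by simp)
      have hb : b ∈ A := hm b (by simp)
      refine (small_of_finite hreg Set.finite_empty).mono ?_
      rintro x ⟨hx, hx2⟩
      have hx1 : x * x * w * x = c := hx
      have hx' : x * x * (a * b) * x = c := by simpa [ev, mul_assoc] using hx2
      rw [← hx1] at hx'
      exact i4 a ha b hb (mul_left_cancel (mul_right_cancel hx'))
    | [none, some a, none, none, some b], _, _, hm =>
      have ha : a ∈ A := hm a (by simp)
      refine (t2 hc (a := a * c) ?_ (c * b⁻¹ * w)).mono ?_
      · intro h; exact i3 a ha (eq_inv_of_mul_eq_one_left h)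
      · rintro x ⟨hx, hx2⟩
        have hx' : x * a * (x * x) * b = c := by simpa [ev, mul_assoc] using hx2
        rw [q1 x hx] at hx'
        show x * (a * c) * x⁻¹ = c * b⁻¹ * w
        calc _ = (x * a * (c * x⁻¹ * w⁻¹) * b) * b⁻¹ * w := by group
          _ = _ := by rw [hx']
    | [none, some a, some b, none, none], _, _, hm =>
      have ha : a ∈ A := hm a (by simp)
      have hb : b ∈ A := hm b (by simp)
      refine (t2 hc (a := a * b * c) ?_ (c * w)).mono ?_
      · intro h; exact i5 a ha b hb (eq_inv_of_mul_eq_one_left h)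
      · rintro x ⟨hx, hx2⟩
        have hx' : x * a * b * (x * x) = c := by simpa [ev, mul_assoc] using hx2
        rw [q1 x hx] at hx'
        show x * (a * b * c) * x⁻¹ = c * w
        calc _ = (x * a * b * (c * x⁻¹ * w⁻¹)) * w := by group
          _ = _ := by rw [hx']
    | [some a, none, some b, none, none], _, _, hm =>
      have hb : b ∈ A := hm b (by simp)
      refine (t2 hc (a := b * c) ?_ (a⁻¹ * c * w)).mono ?_
      · intro h; exact i3 b hb (eq_inv_of_mul_eq_one_left h)
      · rintro x ⟨hx, hx2⟩
        have hx' : a * x * b * (x * x) = c := by simpa [ev, mul_assoc] using hx2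
        rw [q1 x hx] at hx'
        show x * (b * c) * x⁻¹ = a⁻¹ * c * w
        calc _ = a⁻¹ * (a * x * b * (c * x⁻¹ * w⁻¹)) * w := by group
          _ = _ := by rw [hx']
    | [none, some a, none, some b, none], _, _, hm =>
      have ha : a ∈ A := hm a (by simp)
      refine (t2' hc (a := a) (i1 a ha) (w * b⁻¹)).mono ?_
      · rintro x ⟨hx, hx2⟩
        have hx1 : x * x * w * x = c := hx
        have hx' : x * (a * x * b) * x = c := by simpa [ev, mul_assoc] using hx2
        have e : x * (a * x * b) * x = x * (x * w) * x := by rw [hx', ← hx1]; group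
        have e2 : a * x * b = x * w := mul_left_cancel (mul_right_cancel e)
        show x⁻¹ * a * x = w * b⁻¹
        calc x⁻¹ * a * x = x⁻¹ * (a * x * b) * b⁻¹ := by group
          _ = x⁻¹ * (x * w) * b⁻¹ := by rw [e2]
          _ = _ := by group
    -- four occurrences
    | [none, none, none, none, some a], _, _, _ =>
      refine small_subsingleton hreg ?_
      have key : ∀ x : G, x * x * x * x * a = c → x = a * c⁻¹ := by
        intro x hx
        calc x = (x * x * x * x * x) * x⁻¹⁻¹ := by rw [h5]; group
          _ = (x * x * x * x * a) * a⁻¹ * x * x := by group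
          _ = c * a⁻¹ * x * x := by rw [hx]
          _ = a * c⁻¹ := by
            have : x * (c * a⁻¹) = 1 := by
              rw [← hx]; calc _ = x * x * x * x * x := by group
                _ = 1 := h5 x
            have h2 : x = (c * a⁻¹)⁻¹ := eq_inv_of_mul_eq_one_left this
            rw [h2]; group
      rintro x ⟨-, hx⟩ y ⟨-, hy⟩
      rw [key x (by simpa [ev, mul_assoc] using hx), key y (by simpa [ev, mul_assoc] using hy)]
    | [some a, none, none, none, none], _, _, _ =>
      refine small_subsingleton hreg ?_
      have key : ∀ x : G, a * x * x * x * x = c → x = c⁻¹ * a := by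
        intro x hx
        have : x * (a⁻¹ * c) = 1 := by
          rw [← hx]; calc _ = x * x * x * x * x := by group
            _ = 1 := h5 x
        have h2 : x = (a⁻¹ * c)⁻¹ := eq_inv_of_mul_eq_one_left this
        rw [h2]; group
      rintro x ⟨-, hx⟩ y ⟨-, hy⟩
      rw [key x (by simpa [ev, mul_assoc] using hx), key y (by simpa [ev, mul_assoc] using hy)]
    | [none, none, none, some a, none], _, _, _ =>
      refine (s2 hsq w (c⁻¹ * a) 1 c).mono ?_
      rintro x ⟨hx, hx2⟩
      have hx' : x * x * x * a * x = c := by simpa [ev, mul_assoc] using hx2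
      rw [q2 x hx] at hx'
      show w * x * (c⁻¹ * a) * x * 1 = c
      calc _ = w * x * c⁻¹ * a * x := by group
        _ = c := hx'
    | [none, some a, none, none, none], _, _, _ =>
      refine (s2 hsq 1 (a * w) c⁻¹ c).mono ?_
      rintro x ⟨hx, hx2⟩
      have hx' : x * a * (x * x * x) = c := by simpa [ev, mul_assoc] using hx2
      rw [q2 x hx] at hx'
      show 1 * x * (a * w) * x * c⁻¹ = c
      calc _ = x * a * (w * x * c⁻¹) := by group
        _ = c := hx'
    | [none, none, some a, none, none], _, _, _ =>
      refine small_of_injOn (hsq (c * a)) (fun x => x * x * a) ?_ ?_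
      · intro x _ y _ hxy
        have : x * x = y * y := by simpa using hxy
        calc x = (x * x) * (x * x) * (x * x) := by
                calc x = (x * x * x * x * x) * x := by rw [h5]; group
                  _ = _ := by group
          _ = (y * y) * (y * y) * (y * y) := by rw [this]
          _ = (y * y * y * y * y) * y := by group
          _ = y := by rw [h5]; group
      · rintro x ⟨-, hx⟩
        have hx' : x * x * a * x * x = c := by simpa [ev, mul_assoc] using hx
        show x * x * a * (x * x * a) = c * a
        rw [← hx']; group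
    | [none, none, none, none, none], _, _, _ =>
      refine (small_of_finite hreg Set.finite_empty).mono ?_
      rintro x ⟨-, hx⟩
      have hx' : x * x * x * x * x = c := by simpa [ev, mul_assoc] using hx
      exact hc1 (by rw [← hx', h5 x])
    | [some a, some b, some e, some d, some f], _, hn, _ => simp at hn)
  exact ⟨A, hA, fun l hl hm => h (5, c) (by simp) l hl hm⟩

lemma rot_prod {a : G} {l : List G} (h : (l ++ [a]).prod = 1) : (a :: l).prod = 1 := by
  rw [List.prod_append, List.prod_singleton] at h
  rw [List.prod_cons]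
  exact mul_eq_one_comm.1 h

/-- words of length 5 with at least one hole, up to rotation -/
lemma cyc5 {β : Type u} (Q : List (Option β) → Prop)
    (hrot : ∀ (l : List (Option β)) (a : Option β), Q (a :: l) → Q (l ++ [a]))
    (M : Set β)
    (h1 : ∀ a ∈ M, ∀ b ∈ M, ∀ c ∈ M, ∀ d ∈ M, Q [none, some a, some b, some c, some d])
    (h2 : ∀ a ∈ M, ∀ b ∈ M, ∀ c ∈ M, Q [none, none, some a, some b, some c])
    (h2' : ∀ a ∈ M, ∀ b ∈ M, ∀ c ∈ M, Q [none, some a, none, some b, some c])
    (h3 : ∀ a ∈ M, ∀ b ∈ M, Q [none, none, none, some a, some b])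
    (h3' : ∀ a ∈ M, ∀ b ∈ M, Q [none, none, some a, none, some b])
    (h4 : ∀ a ∈ M, Q [none, none, none, none, some a])
    (h5 : Q [none, none, none, none, none]) :
    ∀ l : List (Option β), l.length = 5 → none ∈ l → (∀ y, some y ∈ l → y ∈ M) → Q l := by
  intro l hl hn hM
  have r : ∀ a b c d e : Option β, Q [a, b, c, d, e] → Q [b, c, d, e, a] :=
    fun a b c d e h => hrot [b, c, d, e] a h
  match l, hl, hn, hM with
  | [some a, some b, some c, some d, none], _, _, h =>
    exact r _ _ _ _ _ (h1 a (h a (by simp)) b (h b (by simp)) c (h c (by simp)) d (h d (by simp)))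
  | [some a, some b, some c, none, some d], _, _, h =>
    exact r _ _ _ _ _ (r _ _ _ _ _
      (h1 d (h d (by simp)) a (h a (by simp)) b (h b (by simp)) c (h c (by simp))))
  | [some a, some b, none, some c, some d], _, _, h =>
    exact r _ _ _ _ _ (r _ _ _ _ _ (r _ _ _ _ _
      (h1 c (h c (by simp)) d (h d (by simp)) a (h a (by simp)) b (h b (by simp)))))
  | [some a, none, some b, some c, some d], _, _, h =>
    exact r _ _ _ _ _ (r _ _ _ _ _ (r _ _ _ _ _ (r _ _ _ _ _
      (h1 b (h b (by simp)) c (h c (by simp)) d (h d (by simp)) a (h a (by simp))))))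
  | [none, some a, some b, some c, some d], _, _, h =>
    exact h1 a (h a (by simp)) b (h b (by simp)) c (h c (by simp)) d (h d (by simp))
  | [none, none, some a, some b, some c], _, _, h =>
    exact h2 a (h a (by simp)) b (h b (by simp)) c (h c (by simp))
  | [none, some a, some b, some c, none], _, _, h =>
    exact r _ _ _ _ _ (h2 a (h a (by simp)) b (h b (by simp)) c (h c (by simp)))
  | [some a, some b, some c, none, none], _, _, h =>
    exact r _ _ _ _ _ (r _ _ _ _ _ (h2 a (h a (by simp)) b (h b (by simp)) c (h c (by simp))))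
  | [some a, some b, none, none, some c], _, _, h =>
    exact r _ _ _ _ _ (r _ _ _ _ _ (r _ _ _ _ _
      (h2 c (h c (by simp)) a (h a (by simp)) b (h b (by simp)))))
  | [some a, none, none, some b, some c], _, _, h =>
    exact r _ _ _ _ _ (r _ _ _ _ _ (r _ _ _ _ _ (r _ _ _ _ _
      (h2 b (h b (by simp)) c (h c (by simp)) a (h a (by simp))))))
  | [none, some a, none, some b, some c], _, _, h =>
    exact h2' a (h a (by simp)) b (h b (by simp)) c (h c (by simp))
  | [some a, none, some b, some c, none], _, _, h =>
    exact r _ _ _ _ _ (h2' a (h a (by simp)) b (h b (by simp)) c (h c (by simp)))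
  | [none, some b, some c, none, some a], _, _, h =>
    exact r _ _ _ _ _ (r _ _ _ _ _ (h2' a (h a (by simp)) b (h b (by simp)) c (h c (by simp))))
  | [some b, some c, none, some a, none], _, _, h =>
    exact r _ _ _ _ _ (r _ _ _ _ _ (r _ _ _ _ _
      (h2' a (h a (by simp)) b (h b (by simp)) c (h c (by simp)))))
  | [some c, none, some a, none, some b], _, _, h =>
    exact r _ _ _ _ _ (r _ _ _ _ _ (r _ _ _ _ _ (r _ _ _ _ _
      (h2' a (h a (by simp)) b (h b (by simp)) c (h c (by simp))))))
  | [none, none, none, some a, some b], _, _, h =>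
    exact h3 a (h a (by simp)) b (h b (by simp))
  | [none, none, some a, some b, none], _, _, h =>
    exact r _ _ _ _ _ (h3 a (h a (by simp)) b (h b (by simp)))
  | [none, some a, some b, none, none], _, _, h =>
    exact r _ _ _ _ _ (r _ _ _ _ _ (h3 a (h a (by simp)) b (h b (by simp))))
  | [some a, some b, none, none, none], _, _, h =>
    exact r _ _ _ _ _ (r _ _ _ _ _ (r _ _ _ _ _ (h3 a (h a (by simp)) b (h b (by simp)))))
  | [some b, none, none, none, some a], _, _, h =>
    exact r _ _ _ _ _ (r _ _ _ _ _ (r _ _ _ _ _ (r _ _ _ _ _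
      (h3 a (h a (by simp)) b (h b (by simp))))))
  | [none, none, some a, none, some b], _, _, h =>
    exact h3' a (h a (by simp)) b (h b (by simp))
  | [none, some a, none, some b, none], _, _, h =>
    exact r _ _ _ _ _ (h3' a (h a (by simp)) b (h b (by simp)))
  | [some a, none, some b, none, none], _, _, h =>
    exact r _ _ _ _ _ (r _ _ _ _ _ (h3' a (h a (by simp)) b (h b (by simp))))
  | [none, some b, none, none, some a], _, _, h =>
    exact r _ _ _ _ _ (r _ _ _ _ _ (r _ _ _ _ _ (h3' a (h a (by simp)) b (h b (by simp)))))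
  | [some b, none, none, some a, none], _, _, h =>
    exact r _ _ _ _ _ (r _ _ _ _ _ (r _ _ _ _ _ (r _ _ _ _ _
      (h3' a (h a (by simp)) b (h b (by simp))))))
  | [none, none, none, none, some a], _, _, h => exact h4 a (h a (by simp))
  | [none, none, none, some a, none], _, _, h => exact r _ _ _ _ _ (h4 a (h a (by simp)))
  | [none, none, some a, none, none], _, _, h =>
    exact r _ _ _ _ _ (r _ _ _ _ _ (h4 a (h a (by simp))))
  | [none, some a, none, none, none], _, _, h =>
    exact r _ _ _ _ _ (r _ _ _ _ _ (r _ _ _ _ _ (h4 a (h a (by simp)))))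
  | [some a, none, none, none, none], _, _, h =>
    exact r _ _ _ _ _ (r _ _ _ _ _ (r _ _ _ _ _ (r _ _ _ _ _ (h4 a (h a (by simp))))))
  | [none, none, none, none, none], _, _, _ => exact h5
  | [some a, some b, some c, some d, some e], _, hn, _ => simp at hn

/-- the solution set of a word equation with value one only depends on the word up to rotation -/
lemma rotQ (P : Set G) (l : List (Option G)) (a : Option G)
    (h : Small {x | x ∈ P ∧ (ev x (a :: l)).prod = 1}) :
    Small {x | x ∈ P ∧ (ev x (l ++ [a])).prod = 1} := by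
  refine h.mono ?_
  rintro x ⟨hx, hx2⟩
  refine ⟨hx, ?_⟩
  unfold ev at hx2 ⊢
  rw [List.map_append] at hx2
  exact rot_prod hx2

lemma cyc3 {β : Type u} (Q : List (Option β) → Prop)
    (hrot : ∀ (l : List (Option β)) (a : Option β), Q (a :: l) → Q (l ++ [a]))
    (M : Set β)
    (h1 : ∀ a ∈ M, ∀ b ∈ M, Q [none, some a, some b])
    (h2 : ∀ a ∈ M, Q [none, none, some a])
    (h3 : Q [none, none, none]) :
    ∀ l : List (Option β), l.length = 3 → none ∈ l → (∀ y, some y ∈ l → y ∈ M) → Q l := by
  intro l hl hn hM
  have r : ∀ a b c : Option β, Q [a, b, c] → Q [b, c, a] := fun a b c h => hrot [b, c] a h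
  match l, hl, hn, hM with
  | [none, some a, some b], _, _, h => exact h1 a (h a (by simp)) b (h b (by simp))
  | [some a, some b, none], _, _, h => exact r _ _ _ (h1 a (h a (by simp)) b (h b (by simp)))
  | [some b, none, some a], _, _, h =>
    exact r _ _ _ (r _ _ _ (h1 a (h a (by simp)) b (h b (by simp))))
  | [none, none, some a], _, _, h => exact h2 a (h a (by simp))
  | [none, some a, none], _, _, h => exact r _ _ _ (h2 a (h a (by simp)))
  | [some a, none, none], _, _, h => exact r _ _ _ (r _ _ _ (h2 a (h a (by simp))))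
  | [none, none, none], _, _, _ => exact h3
  | [some a, some b, some c], _, hn, _ => simp at hn

lemma cyc2 {β : Type u} (Q : List (Option β) → Prop)
    (hrot : ∀ (l : List (Option β)) (a : Option β), Q (a :: l) → Q (l ++ [a]))
    (M : Set β)
    (h1 : ∀ a ∈ M, Q [none, some a])
    (h2 : Q [none, none]) :
    ∀ l : List (Option β), l.length = 2 → none ∈ l → (∀ y, some y ∈ l → y ∈ M) → Q l := by
  intro l hl hn hM
  match l, hl, hn, hM with
  | [none, some a], _, _, h => exact h1 a (h a (by simp))
  | [some a, none], _, _, h => exact hrot [some a] none (h1 a (h a (by simp)))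
  | [none, none], _, _, _ => exact h2
  | [some a, some b], _, hn, _ => simp at hn

lemma cyc1 {β : Type u} (Q : List (Option β) → Prop) (h1 : Q [none]) :
    ∀ l : List (Option β), l.length = 1 → none ∈ l → Q l := by
  intro l hl hn
  match l, hl, hn with
  | [none], _, _ => exact h1
  | [some a], _, hn => simp at hn

/-- a set containing a conjugacy class is large -/
lemma conjLarge (hreg : (Cardinal.mk G).IsRegular) (hc : NoCent G) {a : G} (ha : a ≠ 1)
    {P : Set G} (hP : ∀ x : G, x * a * x⁻¹ ∈ P) : ¬ Small P := by
  intro hs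
  have h : Small (⋃ b : P, {x : G | x * a * x⁻¹ = b.1}) :=
    small_iUnion hreg hs fun b => t2 hc ha b.1
  have h2 : Small (Set.univ : Set G) := h.mono fun x _ =>
    Set.mem_iUnion.2 ⟨⟨x * a * x⁻¹, hP x⟩, rfl⟩
  unfold Small at h2
  rw [Cardinal.mk_univ] at h2
  exact lt_irrefl _ h2

/-- groups with involutions -/
theorem caseI (hreg : (Cardinal.mk G).IsRegular) (hc : NoCent G) {e : G} (he : e ≠ 1)
    (he2 : e * e = 1) :
    ∃ A : Set G, Cardinal.mk A = Cardinal.mk G ∧
      ∀ l : List G, l.length = 5 → (∀ y ∈ l, y ∈ A) → l.prod ≠ 1 := by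
  have hP : ¬ Small {x : G | x * x = 1 ∧ x ≠ 1} := by
    refine conjLarge hreg hc he fun x => ⟨?_, ?_⟩
    · calc x * e * x⁻¹ * (x * e * x⁻¹) = x * (e * e) * x⁻¹ := by group
        _ = 1 := by rw [he2]; group
    · intro h
      apply he
      calc e = x⁻¹ * (x * e * x⁻¹) * x := by group
        _ = 1 := by rw [h]; group
  have emp : ∀ S : Set G, (∀ x ∈ S, False) → Small S := fun S h =>
    (small_of_finite hreg Set.finite_empty).mono h
  obtain ⟨A, hA, hAP, h⟩ := greedy hreg {x : G | x * x = 1 ∧ x ≠ 1} hP
    [(3, 1), (5, 1)] (by simp) (by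
    intro A hAP hInv q hq l hl hn hA
    have i1 : ∀ a ∈ A, a ≠ 1 := fun a ha => (hAP ha).2
    have i3 : ∀ a ∈ A, ∀ b ∈ A, ∀ c ∈ A, a * b * c ≠ 1 := fun a ha b hb c hc => by
      simpa [mul_assoc] using hInv (3, 1) (by simp) [a, b, c] rfl (by simp [ha, hb, hc])
    simp only [List.mem_cons, List.not_mem_nil, or_false] at hq
    rcases hq with rfl | rfl
    · refine cyc3 (fun l => Small {x | x ∈ {x : G | x * x = 1 ∧ x ≠ 1} ∧ (ev x l).prod = 1})
        (fun l a => rotQ _ l a) A ?_ ?_ ?_ l hl hn hA
      · intro a _ b _
        exact (s1 hreg 1 (a * b) 1).mono fun x hx => by simpa [ev, mul_assoc] using hx.2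
      · intro a ha
        refine emp _ ?_
        rintro x ⟨hx, hx2⟩
        have hx' : x * x * a = 1 := by simpa [ev, mul_assoc] using hx2
        rw [hx.1, one_mul] at hx'
        exact i1 a ha hx'
      · refine emp _ ?_
        rintro x ⟨hx, hx2⟩
        have hx' : x * x * x = 1 := by simpa [ev, mul_assoc] using hx2
        rw [hx.1, one_mul] at hx'
        exact hx.2 hx'
    · refine cyc5 (fun l => Small {x | x ∈ {x : G | x * x = 1 ∧ x ≠ 1} ∧ (ev x l).prod = 1})
        (fun l a => rotQ _ l a) A ?_ ?_ ?_ ?_ ?_ ?_ ?_ l hl hn hA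
      · intro a _ b _ c _ d _
        exact (s1 hreg 1 (a * b * c * d) 1).mono fun x hx => by simpa [ev, mul_assoc] using hx.2
      · intro a ha b hb c hc
        refine emp _ ?_
        rintro x ⟨hx, hx2⟩
        have hx' : x * x * (a * b * c) = 1 := by simpa [ev, mul_assoc] using hx2
        rw [hx.1, one_mul] at hx'
        exact i3 a ha b hb c hc hx'
      · intro a ha b hb c _
        refine (t2 hc (i1 a ha) (b * c)⁻¹).mono ?_
        rintro x ⟨hx, hx2⟩
        have hx' : x * a * x * (b * c) = 1 := by simpa [ev, mul_assoc] using hx2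
        have hi : x⁻¹ = x := inv_eq_of_mul_eq_one_left hx.1
        show x * a * x⁻¹ = (b * c)⁻¹
        rw [hi]; exact eq_inv_of_mul_eq_one_left hx'
      · intro a _ b _
        refine (s1 hreg 1 (a * b) 1).mono ?_
        rintro x ⟨hx, hx2⟩
        have hx' : x * x * x * (a * b) = 1 := by simpa [ev, mul_assoc] using hx2
        rw [hx.1] at hx'
        exact hx'
      · intro a _ b _
        refine (s1 hreg a b 1).mono ?_
        rintro x ⟨hx, hx2⟩
        have hx' : x * x * (a * x * b) = 1 := by simpa [ev, mul_assoc] using hx2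
        rw [hx.1, one_mul] at hx'
        exact hx'
      · intro a ha
        refine emp _ ?_
        rintro x ⟨hx, hx2⟩
        have hx' : x * x * (x * x) * a = 1 := by simpa [ev, mul_assoc] using hx2
        rw [hx.1, one_mul, one_mul] at hx'
        exact i1 a ha hx'
      · refine emp _ ?_
        rintro x ⟨hx, hx2⟩
        have hx' : x * x * (x * x) * x = 1 := by simpa [ev, mul_assoc] using hx2
        rw [hx.1, one_mul, one_mul] at hx'
        exact hx.2 hx')
  exact ⟨A, hA, fun l hl hm => h (5, 1) (by simp) l hl hm⟩

/-- no involutions, not of exponent 5; the greedy step -/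
theorem caseIIa_step (hreg : (Cardinal.mk G).IsRegular) (hc : NoCent G)
    (hinv : ∀ x : G, x * x = 1 → x = 1) (P : Set G) (hP : ¬ Small P)
    (hP5 : ∀ x ∈ P, x * x * x * x * x ≠ 1) (F : List (ℕ × G)) (hF : ∀ q ∈ F, q.1 = 1)
    (hb : ∀ a b : G, (∀ q ∈ F, a ≠ q.2) →
      Small {x : G | x ∈ P ∧ x * x * a * x * b = 1}) :
    ∃ A : Set G, Cardinal.mk A = Cardinal.mk G ∧
      ∀ l : List G, l.length = 5 → (∀ y ∈ l, y ∈ A) → l.prod ≠ 1 := by
  have emp : ∀ S : Set G, (∀ x ∈ S, False) → Small S := fun S h =>
    (small_of_finite hreg Set.finite_empty).mono h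
  have hsq : ∀ d : G, Small {y : G | y * y = d} := by
    intro d
    by_cases hd : d = 1
    · refine small_subsingleton hreg ?_
      intro x (hx : x * x = d) y (hy : y * y = d)
      rw [hinv x (hx.trans hd), hinv y (hy.trans hd)]
    · exact (t1 hc 2 hd).mono fun x (hx : x * x = d) => by
        show x ^ 2 = d
        rw [pow_two]; exact hx
  obtain ⟨A, hA, hAP, h⟩ := greedy hreg P hP
    (F ++ [(2, 1), (5, 1)]) (by
      intro q hq
      simp only [List.mem_append, List.mem_cons, List.not_mem_nil, or_false] at hq
      rcases hq with hq | rfl | rfl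
      · rw [hF q hq]; norm_num
      · norm_num
      · norm_num) (by
    intro A hAP hInv q hq l hl hn hA
    have i1 : ∀ a ∈ A, a ≠ 1 := by
      rintro a ha rfl
      exact hP5 1 (hAP ha) (by group)
    have i2 : ∀ a ∈ A, ∀ b ∈ A, a * b ≠ 1 := fun a ha b hb => by
      simpa [mul_assoc] using hInv (2, 1) (by simp) [a, b] rfl (by simp [ha, hb])
    have iF : ∀ a ∈ A, ∀ q ∈ F, a ≠ q.2 := fun a ha q hq => by
      simpa using hInv q (by simp [hq]) [a] (by simpa using (hF q hq).symm) (by simpa using ha)
    simp only [List.mem_append, List.mem_cons, List.not_mem_nil, or_false] at hq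
    rcases hq with hq | rfl | rfl
    · have hl1 : l.length = 1 := hl.trans (hF q hq)
      refine cyc1 (fun l => Small {x | x ∈ P ∧ (ev x l).prod = q.2}) ?_ l hl1 hn
      exact (s1 hreg 1 1 q.2).mono fun x hx => by simpa [ev] using hx.2
    · refine cyc2 (fun l => Small {x | x ∈ P ∧ (ev x l).prod = 1})
        (fun l a => rotQ _ l a) A ?_ ?_ l hl hn hA
      · intro a _
        exact (s1 hreg 1 a 1).mono fun x hx => by simpa [ev, mul_assoc] using hx.2
      · exact (hsq 1).mono fun x hx => by simpa [ev, mul_assoc] using hx.2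
    · refine cyc5 (fun l => Small {x | x ∈ P ∧ (ev x l).prod = 1})
        (fun l a => rotQ _ l a) A ?_ ?_ ?_ ?_ ?_ ?_ ?_ l hl hn hA
      · intro a _ b _ c _ d _
        exact (s1 hreg 1 (a * b * c * d) 1).mono fun x hx => by simpa [ev, mul_assoc] using hx.2
      · intro a ha b hb c hc
        exact (s2 hsq 1 1 (a * b * c) 1).mono fun x hx => by simpa [ev, mul_assoc] using hx.2
      · intro a ha b hb c _
        exact (s2 hsq 1 a (b * c) 1).mono fun x hx => by simpa [ev, mul_assoc] using hx.2
      · intro a ha b hb
        refine (t1 hc 3 (c := (a * b)⁻¹) ?_).mono ?_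
        · intro h; exact i2 a ha b hb (inv_eq_one.1 h)
        rintro x ⟨hx, hx2⟩
        have hx' : x * x * x * (a * b) = 1 := by simpa [ev, mul_assoc] using hx2
        show x ^ 3 = (a * b)⁻¹
        have e : x ^ 3 = x * x * x := by simp [pow_succ]
        rw [e]; exact eq_inv_of_mul_eq_one_left hx'
      · intro a ha b _
        refine (hb a b (iF a ha)).mono ?_
        rintro x ⟨hx, hx2⟩
        exact ⟨hx, by simpa [ev, mul_assoc] using hx2⟩
      · intro a ha
        refine (t1 hc 4 (c := a⁻¹) ?_).mono ?_
        · intro h; exact i1 a ha (inv_eq_one.1 h)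
        rintro x ⟨hx, hx2⟩
        have hx' : x * x * x * x * a = 1 := by simpa [ev, mul_assoc] using hx2
        show x ^ 4 = a⁻¹
        have e : x ^ 4 = x * x * x * x := by simp [pow_succ]
        rw [e]; exact eq_inv_of_mul_eq_one_left hx'
      · refine emp _ ?_
        rintro x ⟨hx, hx2⟩
        exact hP5 x hx (by simpa [ev, mul_assoc] using hx2))
  exact ⟨A, hA, fun l hl hm => h (5, 1) (by simp) l hl hm⟩

/-- no involutions, not of exponent 5 -/
theorem caseIIa (hreg : (Cardinal.mk G).IsRegular) (hc : NoCent G)
    (hinv : ∀ x : G, x * x = 1 → x = 1) {e : G} (he : e * e * e * e * e ≠ 1) :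
    ∃ A : Set G, Cardinal.mk A = Cardinal.mk G ∧
      ∀ l : List G, l.length = 5 → (∀ y ∈ l, y ∈ A) → l.prod ≠ 1 := by
  have he1 : e ≠ 1 := by
    rintro rfl
    exact he (by group)
  have hP : ¬ Small {x : G | x * x * x * x * x ≠ 1} := by
    refine conjLarge hreg hc he1 fun x h => he ?_
    have h' : x * (e * e * e * e * e) * x⁻¹ = 1 := by
      rw [← h]; group
    calc e * e * e * e * e = x⁻¹ * (x * (e * e * e * e * e) * x⁻¹) * x := by group
      _ = 1 := by rw [h']; group
  by_cases hall : ∀ a b : G, Small {x : G | x ∈ {x : G | x * x * x * x * x ≠ 1} ∧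
      x * x * a * x * b = 1}
  · exact caseIIa_step hreg hc hinv _ hP (fun x hx => hx) [] (by simp) fun a b _ => hall a b
  · push Not at hall
    obtain ⟨a0, b0, hab⟩ := hall
    refine caseIIa_step hreg hc hinv {x : G | x ∈ {x : G | x * x * x * x * x ≠ 1} ∧
      x * x * a0 * x * b0 = 1} hab (fun x hx => hx.1) [(1, a0)] (by simp) ?_
    intro a b ha
    have ha' : a ≠ a0 := by simpa using ha
    refine (t2' hc (a := a0⁻¹ * a) ?_ (b0 * b⁻¹)).mono ?_
    · intro h; exact ha' (by rw [← mul_one a0, ← h]; group)
    rintro x ⟨⟨-, hx1⟩, hx2⟩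
    have e1 : x * x = b0⁻¹ * x⁻¹ * a0⁻¹ := by
      have : x * x * (a0 * x * b0) = 1 := by rw [← hx1]; group
      rw [eq_inv_of_mul_eq_one_left this]; group
    have e2 : x * x = b⁻¹ * x⁻¹ * a⁻¹ := by
      have : x * x * (a * x * b) = 1 := by rw [← hx2]; group
      rw [eq_inv_of_mul_eq_one_left this]; group
    show x⁻¹ * (a0⁻¹ * a) * x = b0 * b⁻¹
    calc x⁻¹ * (a0⁻¹ * a) * x = b0 * (b0⁻¹ * x⁻¹ * a0⁻¹) * a * x := by group
      _ = b0 * (b⁻¹ * x⁻¹ * a⁻¹) * a * x := by rw [← e1, e2]
      _ = b0 * b⁻¹ := by group

/-- the centreless case -/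
theorem five_centreless (hreg : (Cardinal.mk G).IsRegular) (hc : NoCent G) :
    ∃ g : G, ∃ A : Set G, Cardinal.mk A = Cardinal.mk G ∧
      ∀ l : List G, l.length = 5 → (∀ y ∈ l, y ∈ A) → l.prod ≠ g := by
  by_cases h2 : ∃ e : G, e ≠ 1 ∧ e * e = 1
  · obtain ⟨e, he, he2⟩ := h2
    exact ⟨1, caseI hreg hc he he2⟩
  have hinv : ∀ x : G, x * x = 1 → x = 1 := by
    intro x hx; by_contra h; exact h2 ⟨x, h, hx⟩
  by_cases h5 : ∃ e : G, e * e * e * e * e ≠ 1
  · obtain ⟨e, he⟩ := h5
    exact ⟨1, caseIIa hreg hc hinv he⟩
  have h5' : ∀ x : G, x * x * x * x * x = 1 := by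
    intro x; by_contra h; exact h5 ⟨x, h⟩
  by_cases hall : ∀ u v c : G, Small {x : G | x * u * x * v * x = c}
  · have : Infinite G := by
      rw [Cardinal.infinite_iff]; exact hreg.aleph0_le
    obtain ⟨g, hg⟩ := exists_ne (1 : G)
    exact ⟨g, caseIIb2 hreg h5' hall hg⟩
  push Not at hall
  obtain ⟨u, v, c, hS⟩ := hall
  -- normal form
  have hS' : ¬ Small {x : G | x * x * (u⁻¹ * v) * x = c * u} := by
    intro h
    apply hS
    refine small_of_injOn h (fun x => x * u) (fun x _ y _ h => by simpa using h) ?_
    intro x (hx : x * u * x * v * x = c)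
    show x * u * (x * u) * (u⁻¹ * v) * (x * u) = c * u
    rw [← hx]; group
  refine ⟨c * u, caseIIb1 hreg hc h5' (w := u⁻¹ * v) ?_ hS'⟩
  intro h1
  rw [h1] at hS'
  apply hS'
  have h3 : ∀ x : G, x * x * (u⁻¹ * v) * x = 1 → x * x * x = (u⁻¹ * v)⁻¹ := by
    intro x hx
    have e : (u⁻¹ * v) * (x * x * x) = 1 := by
      have : (x * x) * ((u⁻¹ * v) * x) = 1 := by rw [← hx]; group
      have := mul_eq_one_comm.1 this
      rw [← this]; group
    exact eq_inv_of_mul_eq_one_right e
  refine small_subsingleton hreg ?_
  have key : ∀ x : G, x * x * (u⁻¹ * v) * x = 1 → x = (u⁻¹ * v)⁻¹ * (u⁻¹ * v)⁻¹ := by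
    intro x hx
    rw [← h3 x hx]
    calc x = (x * x * x * x * x) * x := by rw [h5']; group
      _ = _ := by group
  intro x hx y hy
  rw [key x hx, key y hy]

end Pool.Shelah
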