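import Pool.Agent.Work.MP_b41eab_h9.Five

/-!
# Shelah groups: reduction to the centreless case
-/

set_option autoImplicit false

open Cardinal

universe u

namespace Pool.Shelah

/-- every large set generates every element by words of length five -/
def She (G : Type u) [Group G] (n : ℕ) : Prop :=
  ∀ A : Set G, Cardinal.mk A = Cardinal.mk G →
    ∀ g : G, ∃ l : List G, l.length = n ∧ (∀ y ∈ l, y ∈ A) ∧ l.prod = g

variable {G : Type u} [Group G]

lemma She.large {n : ℕ} (h : She G n) {S : Set G} (hS : ¬ Small S) (g : G) :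
    ∃ l : List G, l.length = n ∧ (∀ y ∈ l, y ∈ S) ∧ l.prod = g :=
  h S (mk_eq_of_not_small hS) g

/-- a subgroup containing a large set is everything -/
lemma She.sub_top {n : ℕ} (h : She G n) {S : Set G} (hS : ¬ Small S) (H : Subgroup G)
    (hH : S ⊆ H) : ∀ g : G, g ∈ H := by
  intro g
  obtain ⟨l, -, hl, rfl⟩ := h.large hS g
  exact H.list_prod_mem fun y hy => hH (hl y hy)

lemma She.comm {n : ℕ} (h : She G n) {S : Set G} (hS : ¬ Small S) {c : G}
    (hc : ∀ x ∈ S, c * x = x * c) : ∀ g : G, c * g = g * c := by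
  intro g
  have := h.sub_top hS (Subgroup.centralizer {c}) (fun x hx => by
    rw [SetLike.mem_coe, Subgroup.mem_centralizer_singleton_iff]
    exact (hc x hx).symm) g
  rw [Subgroup.mem_centralizer_singleton_iff] at this
  exact this.symm

lemma She.noCent {n : ℕ} (h : She G n) (hz : ∀ c : G, (∀ g : G, c * g = g * c) → c = 1) :
    NoCent G := fun _ hS c hc => hz c (h.comm hS hc)

omit [Group G] in
lemma not_small_univ : ¬ Small (Set.univ : Set G) := by
  intro h
  unfold Small at h
  rw [Cardinal.mk_univ] at h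
  exact lt_irrefl _ h

/-- translates of small sets are small -/
lemma small_translate {S : Set G} (hS : Small S) (a : G) : Small {x : G | a * x ∈ S} :=
  small_of_injOn hS (fun x => a * x) (fun _ _ _ _ h => mul_left_cancel h) fun _ hx => hx

lemma exists_functional (K V : Type*) [Field K] [AddCommGroup V] [Module K V] {v : V}
    (hv : v ≠ 0) : ∃ φ : V →+ K, φ v ≠ 0 := by
  by_contra hcon
  push Not at hcon
  exact hv ((Module.forall_dual_apply_eq_zero_iff K v).1 fun φ => hcon φ.toAddMonoidHom)

section comm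
variable {G : Type u} [CommGroup G]

lemma ev_comm (l : List (Option G)) :
    ∃ w : G, ∀ x : G, (ev x l).prod = x ^ (l.countP (fun o => o.isNone)) * w := by
  induction l with
  | nil => exact ⟨1, fun x => by simp [ev]⟩
  | cons o t ih =>
    obtain ⟨w, hw⟩ := ih
    cases o with
    | none =>
      refine ⟨w, fun x => ?_⟩
      have h1 : (ev x (none :: t)).prod = x * (ev x t).prod := by simp [ev]
      rw [h1, hw x]
      simp only [List.countP_cons, Option.isNone_none, if_true]
      rw [pow_succ, ← mul_assoc, mul_comm x]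
    | some a =>
      refine ⟨a * w, fun x => ?_⟩
      have h1 : (ev x (some a :: t)).prod = a * (ev x t).prod := by simp [ev]
      rw [h1, hw x]
      simp [mul_left_comm]

lemma She.pow_top {n : ℕ} (h : She G n) (hreg : (Cardinal.mk G).IsRegular) {k : ℕ} {c : G}
    (hS : ¬ Small {x : G | x ^ k = c}) : ∀ x : G, x ^ k = 1 := by
  have hne : ({x : G | x ^ k = c}).Nonempty := by
    by_contra h0
    rw [Set.not_nonempty_iff_eq_empty] at h0
    exact hS (h0 ▸ small_of_finite hreg Set.finite_empty)
  obtain ⟨x0, hx0⟩ := hne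
  have hx0' : x0 ^ k = c := hx0
  have hT : ¬ Small {x : G | x0 * x ∈ {x : G | x ^ k = c}} := by
    intro hsm
    apply hS
    refine small_of_injOn hsm (fun x => x0⁻¹ * x) (fun x _ y _ h => mul_left_cancel h) ?_
    intro x hx
    show x0 * (x0⁻¹ * x) ∈ {x : G | x ^ k = c}
    rw [mul_inv_cancel_left]; exact hx
  intro x
  have := h.sub_top hT (powMonoidHom k : G →* G).ker (by
    intro y hy
    have hy' : (x0 * y) ^ k = c := hy
    rw [mul_pow, hx0'] at hy'
    rw [SetLike.mem_coe, MonoidHom.mem_ker]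
    exact mul_eq_left.1 hy') x
  rw [MonoidHom.mem_ker] at this
  exact this

lemma She.prime_false {n : ℕ} (h : She G n) (hreg : (Cardinal.mk G).IsRegular) (p : ℕ)
    [Fact p.Prime] (hp : ∀ x : G, x ^ p = 1) : False := by
  have : Infinite G := by
    rw [Cardinal.infinite_iff]; exact hreg.aleph0_le
  have hmod : ∀ x : Additive G, p • x = 0 := fun x => hp x.toMul
  obtain ⟨v, hv⟩ := exists_ne (1 : G)
  obtain ⟨φ, hφ⟩ : ∃ φ : Additive G →+ ZMod p, φ (Additive.ofMul v) ≠ 0 :=
    @exists_functional (ZMod p) (Additive G) _ _ (AddCommGroup.zmodModule (n := p) hmod)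
      (Additive.ofMul v) hv
  let H : Subgroup G :=
    { carrier := {g | φ (Additive.ofMul g) = 0}
      mul_mem' := fun {a b} ha hb => by
        have ha' : φ (Additive.ofMul a) = 0 := ha
        have hb' : φ (Additive.ofMul b) = 0 := hb
        show φ (Additive.ofMul (a * b)) = 0
        rw [ofMul_mul, map_add, ha', hb', add_zero]
      one_mem' := by
        show φ (Additive.ofMul 1) = 0
        rw [ofMul_one, map_zero]
      inv_mem' := fun {a} ha => by
        have ha' : φ (Additive.ofMul a) = 0 := ha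
        show φ (Additive.ofMul a⁻¹) = 0
        rw [ofMul_inv, map_neg, ha', neg_zero] }
  have hH : ¬ Small (H : Set G) := by
    intro hs
    have hf : ∀ z : ULift.{u} (ZMod p), Small {g : G | φ (Additive.ofMul g) = z.down} := by
      intro z
      by_cases hz : ∃ g0 : G, φ (Additive.ofMul g0) = z.down
      · obtain ⟨g0, hg0⟩ := hz
        refine (small_translate hs g0⁻¹).mono ?_
        intro g (hg : φ (Additive.ofMul g) = z.down)
        show φ (Additive.ofMul (g0⁻¹ * g)) = 0
        rw [ofMul_mul, map_add, ofMul_inv, map_neg, hg, hg0, neg_add_cancel]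
      · refine (small_of_finite hreg Set.finite_empty).mono ?_
        intro g hg
        exact hz ⟨g, hg⟩
    have hfin : Cardinal.mk (ULift.{u} (ZMod p)) < Cardinal.mk G := by
      have : NeZero p := ⟨(Fact.out : p.Prime).ne_zero⟩
      exact lt_of_lt_of_le (Cardinal.lt_aleph0_of_finite _) hreg.aleph0_le
    refine not_small_univ ((small_iUnion hreg hfin hf).mono ?_)
    intro g _
    exact Set.mem_iUnion.2 ⟨⟨φ (Additive.ofMul g)⟩, rfl⟩
  exact hφ (h.sub_top hH H subset_rfl v)

theorem She.comm_false (h : She G 5) (hreg : (Cardinal.mk G).IsRegular) : False := by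
  by_cases hall : ∀ k : ℕ, 2 ≤ k → k ≤ 5 → ∀ c : G, Small {x : G | x ^ k = c}
  · obtain ⟨A, hA, -, hg⟩ := greedy hreg (Set.univ : Set G) not_small_univ [(5, (1 : G))] (by simp) (by
      intro A _ hInv q hq l hl hn hA
      simp only [List.mem_singleton] at hq
      subst hq
      obtain ⟨w, hw⟩ := ev_comm l
      have hc0 : l.countP (fun o => o.isNone) ≠ 0 := by
        intro h0
        rw [List.countP_eq_zero] at h0
        exact h0 none hn (by simp)
      have hc5 : l.countP (fun o => o.isNone) ≤ 5 := by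
        have : l.length = 5 := hl
        rw [← this]; exact List.countP_le_length
      have key : Small {x : G | x ^ (l.countP (fun o => o.isNone)) = w⁻¹} := by
        by_cases h1 : l.countP (fun o => o.isNone) = 1
        · rw [h1]
          refine small_subsingleton hreg ?_
          intro x (hx : x ^ 1 = w⁻¹) y (hy : y ^ 1 = w⁻¹)
          rw [pow_one] at hx hy
          rw [hx, hy]
        · exact hall _ (by omega) hc5 _
      refine key.mono ?_
      rintro x ⟨-, hx⟩
      rw [hw x] at hx
      exact eq_inv_of_mul_eq_one_left hx)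
    obtain ⟨l, hl, hm, hp⟩ := h A hA 1
    exact hg (5, 1) (by simp) l hl hm hp
  · push Not at hall
    obtain ⟨k, hk2, hk5, c, hS⟩ := hall
    have hk := h.pow_top hreg hS
    interval_cases k
    · have : Fact (Nat.Prime 2) := ⟨by norm_num⟩
      exact h.prime_false hreg 2 hk
    · have : Fact (Nat.Prime 3) := ⟨by norm_num⟩
      exact h.prime_false hreg 3 hk
    · -- exponent four
      have : Fact (Nat.Prime 2) := ⟨by norm_num⟩
      by_cases hs : Small {x : G | x ^ 2 = 1}
      · refine not_small_univ ((small_iUnion hreg (t := fun d : {x : G | x ^ 2 = 1} =>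
          {x : G | x ^ 2 = d.1}) hs ?_).mono ?_)
        · intro d
          by_contra hd
          have := h.pow_top hreg hd
          exact not_small_univ (hs.mono fun x _ => this x)
        · intro x _
          refine Set.mem_iUnion.2 ⟨⟨x ^ 2, ?_⟩, rfl⟩
          show (x ^ 2) ^ 2 = 1
          rw [← pow_mul]; exact hk x
      · exact h.prime_false hreg 2 (h.pow_top hreg hs)
    · have : Fact (Nat.Prime 5) := ⟨by norm_num⟩
      exact h.prime_false hreg 5 hk

end comm

variable {G : Type u} [Group G]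

/-- the quotient by a small centre -/
lemma quot_card (hreg : (Cardinal.mk G).IsRegular) (Z : Subgroup G) (hZ : Small (Z : Set G)) :
    Cardinal.mk (G ⧸ Z) = Cardinal.mk G := by
  refine le_antisymm (Cardinal.mk_le_of_surjective (QuotientGroup.mk_surjective (s := Z))) ?_
  by_contra hlt
  rw [not_le] at hlt
  have e : Cardinal.mk G = Cardinal.mk (G ⧸ Z) * Cardinal.mk Z := by
    rw [Cardinal.mk_congr (Subgroup.groupEquivQuotientProdSubgroup (s := Z)), Cardinal.mk_prod,
      Cardinal.lift_id, Cardinal.lift_id]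
  have h2 := Cardinal.mul_lt_of_lt hreg.aleph0_le hlt hZ
  exact absurd e (ne_of_gt h2)

lemma quot_she {n : ℕ} (h : She G n) (Z : Subgroup G) [Z.Normal]
    (hcard : Cardinal.mk (G ⧸ Z) = Cardinal.mk G) : She (G ⧸ Z) n := by
  intro B hB q
  obtain ⟨g, rfl⟩ := QuotientGroup.mk_surjective q
  have hA : Cardinal.mk ((fun x : G => (x : G ⧸ Z)) ⁻¹' B) = Cardinal.mk G := by
    refine le_antisymm (Cardinal.mk_set_le _) ?_
    rw [← hcard, ← hB]
    refine Cardinal.mk_le_of_surjective
      (f := fun x : ((fun x : G => (x : G ⧸ Z)) ⁻¹' B) => (⟨(x.1 : G ⧸ Z), x.2⟩ : B)) ?_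
    rintro ⟨b, hb⟩
    obtain ⟨x, rfl⟩ := QuotientGroup.mk_surjective b
    exact ⟨⟨x, hb⟩, rfl⟩
  obtain ⟨l, hl, hm, hp⟩ := h _ hA g
  refine ⟨l.map (fun x : G => (x : G ⧸ Z)), by simpa using hl, ?_, ?_⟩
  · intro y hy
    obtain ⟨x, hx, rfl⟩ := List.mem_map.1 hy
    exact hm x hx
  · rw [← hp]
    exact (map_list_prod (QuotientGroup.mk' Z) l).symm

lemma quot_centreless {n : ℕ} (hreg : (Cardinal.mk G).IsRegular) (h : She G n)
    (hZ : Small ((Subgroup.center G : Subgroup G) : Set G)) (c : G ⧸ Subgroup.center G)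
    (hc : ∀ g, c * g = g * c) : c = 1 := by
  obtain ⟨a, rfl⟩ := QuotientGroup.mk_surjective c
  have hz : ∀ x : G, a * x * a⁻¹ * x⁻¹ ∈ Subgroup.center G := by
    intro x
    have h1 := hc (x : G ⧸ Subgroup.center G)
    rw [← QuotientGroup.mk_mul, ← QuotientGroup.mk_mul, QuotientGroup.eq] at h1
    -- (a x)⁻¹ (x a) central
    have h2 := (Subgroup.center G).inv_mem h1
    have h3 : a * x * a⁻¹ * x⁻¹ = (x * a) * (((a * x)⁻¹ * (x * a))⁻¹) * (x * a)⁻¹ := by group
    rw [h3]
    exact (inferInstance : (Subgroup.center G).Normal).conj_mem _ h2 _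
  have hf : ∃ z : ((Subgroup.center G : Subgroup G) : Set G),
      ¬ Small {x : G | a * x * a⁻¹ * x⁻¹ = z.1} := by
    by_contra hcon
    push Not at hcon
    refine not_small_univ ((small_iUnion hreg hZ hcon).mono ?_)
    intro x _
    exact Set.mem_iUnion.2 ⟨⟨_, hz x⟩, rfl⟩
  obtain ⟨z, hS⟩ := hf
  have hne : ({x : G | a * x * a⁻¹ * x⁻¹ = z.1}).Nonempty := by
    by_contra h0
    rw [Set.not_nonempty_iff_eq_empty] at h0
    exact hS (h0 ▸ small_of_finite hreg Set.finite_empty)
  obtain ⟨x0, hx0⟩ := hne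
  have hx0' : a * x0 * a⁻¹ * x0⁻¹ = z.1 := hx0
  have hT : ¬ Small {x : G | x0 * x ∈ {x : G | a * x * a⁻¹ * x⁻¹ = z.1}} := by
    intro hsm
    apply hS
    refine small_of_injOn hsm (fun x => x0⁻¹ * x) (fun x _ y _ h => mul_left_cancel h) ?_
    intro x hx
    show x0 * (x0⁻¹ * x) ∈ {x : G | a * x * a⁻¹ * x⁻¹ = z.1}
    rw [mul_inv_cancel_left]; exact hx
  have hcomm := h.comm hT (c := a) (by
    intro y hy
    have hy' : a * (x0 * y) * a⁻¹ * (x0 * y)⁻¹ = z.1 := hy
    have h1 : a * (x0 * y) * a⁻¹ * (x0 * y)⁻¹ = a * x0 * a⁻¹ * x0⁻¹ := by rw [hy', hx0']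
    have h2 : a * y * a⁻¹ * y⁻¹ = 1 := by
      calc a * y * a⁻¹ * y⁻¹
          = (a * x0 * a⁻¹)⁻¹ * (a * (x0 * y) * a⁻¹ * (x0 * y)⁻¹) * x0 := by group
        _ = (a * x0 * a⁻¹)⁻¹ * (a * x0 * a⁻¹ * x0⁻¹) * x0 := by rw [h1]
        _ = 1 := by group
    calc a * y = (a * y * a⁻¹ * y⁻¹) * (y * a) := by group
      _ = y * a := by rw [h2, one_mul])
  rw [QuotientGroup.eq_one_iff, Subgroup.mem_center_iff]
  intro g
  exact (hcomm g).symm

/-- **no infinite group of regular cardinality is 5-Shelah** -/
theorem not_she_five (hreg : (Cardinal.mk G).IsRegular) : ¬ She G 5 := by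
  intro h
  by_cases hZ : Small ((Subgroup.center G : Subgroup G) : Set G)
  · have hcard := quot_card hreg _ hZ
    have hQ := quot_she h (Subgroup.center G) hcard
    have hreg' : (Cardinal.mk (G ⧸ Subgroup.center G)).IsRegular := by rw [hcard]; exact hreg
    obtain ⟨g, A, hA, hg⟩ := five_centreless hreg'
      (hQ.noCent (fun c hc => quot_centreless hreg h hZ c hc))
    obtain ⟨l, hl, hm, hp⟩ := hQ A hA g
    exact hg l hl hm hp
  · have hc := h.sub_top hZ (Subgroup.center G) subset_rfl
    let _ : CommGroup G :=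
      { (inferInstance : Group G) with
        mul_comm := fun a b => ((Subgroup.mem_center_iff.1 (hc b)) a) }
    exact She.comm_false (G := G) h hreg

end Pool.Shelah
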