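import Mathlib

/-!
# Shelah groups: small sets and the greedy construction
-/

set_option autoImplicit false

open Cardinal

universe u

namespace Pool.Shelah

variable {G : Type u}

/-- a subset of cardinality less than the whole -/
def Small (S : Set G) : Prop := Cardinal.mk S < Cardinal.mk G

lemma Small.mono {S T : Set G} (hT : Small T) (h : S ⊆ T) : Small S :=
  lt_of_le_of_lt (Cardinal.mk_le_mk_of_subset h) hT

lemma small_of_finite (hreg : (Cardinal.mk G).IsRegular) {S : Set G} (h : S.Finite) : Small S :=
  lt_of_lt_of_le (Cardinal.lt_aleph0_iff_set_finite.2 h) hreg.aleph0_le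

lemma small_iUnion (hreg : (Cardinal.mk G).IsRegular) {ι : Type u} (hι : Cardinal.mk ι < Cardinal.mk G)
    {t : ι → Set G} (h : ∀ i, Small (t i)) : Small (⋃ i, t i) :=
  (Cardinal.card_iUnion_lt_iff_forall_of_isRegular hreg hι).2 h

lemma small_union (hreg : (Cardinal.mk G).IsRegular) {S T : Set G} (hS : Small S) (hT : Small T) :
    Small (S ∪ T) :=
  lt_of_le_of_lt (Cardinal.mk_union_le S T) (Cardinal.add_lt_of_lt hreg.aleph0_le hS hT)

lemma small_subsingleton (hreg : (Cardinal.mk G).IsRegular) {S : Set G}
    (h : ∀ x ∈ S, ∀ y ∈ S, x = y) : Small S :=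
  small_of_finite hreg (Set.Subsingleton.finite fun x hx y hy => h x hx y hy)

lemma small_of_injOn {S T : Set G} (hT : Small T) (f : G → G) (hf : Set.InjOn f S)
    (hm : ∀ x ∈ S, f x ∈ T) : Small S := by
  refine lt_of_le_of_lt ?_ hT
  exact Cardinal.mk_le_of_injective (f := fun x : S => (⟨f x.1, hm x.1 x.2⟩ : T)) (by
    rintro ⟨x, hx⟩ ⟨y, hy⟩ h
    have : f x = f y := congrArg Subtype.val h
    exact Subtype.ext (hf hx hy this))

lemma mk_eq_of_not_small {S : Set G} (h : ¬ Small S) : Cardinal.mk S = Cardinal.mk G :=
  le_antisymm (Cardinal.mk_set_le S) (not_lt.1 h)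

/-- words with holes -/
def ev (x : G) : List (Option G) → List G := List.map (fun o => o.getD x)

lemma small_lists (hreg : (Cardinal.mk G).IsRegular) {A : Set G} (hA : Small A) (n : ℕ) :
    Cardinal.mk {l : List (Option A) // l.length = n} < Cardinal.mk G := by
  have h1 : Cardinal.mk (Option A) < Cardinal.mk G := by
    rw [Cardinal.mk_option]
    exact Cardinal.add_lt_of_lt hreg.aleph0_le hA (lt_of_lt_of_le Cardinal.one_lt_aleph0 hreg.aleph0_le)
  induction n with
  | zero =>
    have : Finite {l : List (Option A) // l.length = 0} := by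
      refine Finite.of_injective (fun _ => ()) ?_
      rintro ⟨l, hl⟩ ⟨m, hm⟩ _
      have h2 := List.length_eq_zero_iff.1 hl
      have h3 := List.length_eq_zero_iff.1 hm
      subst h2; subst h3; rfl
    exact lt_of_lt_of_le (Cardinal.lt_aleph0_of_finite _) hreg.aleph0_le
  | succ n ih =>
    have h2 : Cardinal.mk (Option A × {l : List (Option A) // l.length = n}) < Cardinal.mk G := by
      rw [Cardinal.mk_prod, Cardinal.lift_id, Cardinal.lift_id]
      exact Cardinal.mul_lt_of_lt hreg.aleph0_le h1 ih
    refine lt_of_le_of_lt ?_ h2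
    refine Cardinal.mk_le_of_surjective
      (f := fun p : Option A × {l : List (Option A) // l.length = n} =>
        (⟨p.1 :: p.2.1, by simp [p.2.2]⟩ : {l : List (Option A) // l.length = n + 1})) ?_
    rintro ⟨l, hl⟩
    match l, hl with
    | a :: t, hl => exact ⟨⟨a, t, by simpa using hl⟩, rfl⟩

/-- **greedy construction**: `F` = list of forbidden values `(length, value)`. -/
theorem greedy [Monoid G] (hreg : (Cardinal.mk G).IsRegular) (P : Set G) (hP : ¬ Small P)
    (F : List (ℕ × G)) (hF0 : ∀ q ∈ F, q.1 ≠ 0)
    (hstep : ∀ A : Set G, A ⊆ P →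
      (∀ q ∈ F, ∀ l : List G, l.length = q.1 → (∀ y ∈ l, y ∈ A) → l.prod ≠ q.2) →
      ∀ q ∈ F, ∀ l : List (Option G), l.length = q.1 → none ∈ l → (∀ y, some y ∈ l → y ∈ A) →
        Small {x | x ∈ P ∧ (ev x l).prod = q.2}) :
    ∃ A : Set G, Cardinal.mk A = Cardinal.mk G ∧ A ⊆ P ∧
      ∀ q ∈ F, ∀ l : List G, l.length = q.1 → (∀ y ∈ l, y ∈ A) → l.prod ≠ q.2 := by
  classical
  let Inv : Set (Set G) := {A | A ⊆ P ∧
      ∀ q ∈ F, ∀ l : List G, l.length = q.1 → (∀ y ∈ l, y ∈ A) → l.prod ≠ q.2}
  obtain ⟨A, hA⟩ := zorn_subset Inv (by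
    intro c hc hchain
    refine ⟨⋃₀ c, ⟨?_, ?_⟩, fun s hs => Set.subset_sUnion_of_mem hs⟩
    · exact Set.sUnion_subset fun s hs => (hc hs).1
    · intro q hq l hl hm
      have key : l ≠ [] → ∃ s ∈ c, ∀ y ∈ l, y ∈ s := by
        clear hl
        induction l with
        | nil => intro h; exact absurd rfl h
        | cons a t ih =>
          intro _
          obtain ⟨s, hs, has⟩ := hm a (by simp)
          by_cases ht : t = []
          · subst ht; exact ⟨s, hs, by simpa using has⟩
          · obtain ⟨s', hs', h'⟩ := ih (fun y hy => hm y (by simp [hy])) ht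
            rcases hchain.total hs hs' with h | h
            · exact ⟨s', hs', by
                intro y hy; rcases List.mem_cons.1 hy with rfl | hy
                · exact h has
                · exact h' y hy⟩
            · exact ⟨s, hs, by
                intro y hy; rcases List.mem_cons.1 hy with rfl | hy
                · exact has
                · exact h (h' y hy)⟩
      have hne : l ≠ [] := by
        rintro rfl
        exact hF0 q hq (by simpa using hl.symm)
      obtain ⟨s, hs, h⟩ := key hne
      exact (hc hs).2 q hq l hl h)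
  refine ⟨A, ?_, hA.prop.1, hA.prop.2⟩
  by_contra hcard
  have hsmall : Small A := by
    by_contra h; exact hcard (mk_eq_of_not_small h)
  apply hP
  have hFfin : Cardinal.mk {q // q ∈ F} < Cardinal.mk G := by
    have : Finite {q // q ∈ F} := (F.finite_toSet).to_subtype
    exact lt_of_lt_of_le (Cardinal.lt_aleph0_of_finite _) hreg.aleph0_le
  have hbad : Small (⋃ q : {q // q ∈ F}, ⋃ l : {l : List (Option A) // l.length = q.1.1},
      {x | x ∈ P ∧ none ∈ l.1 ∧ (ev x (l.1.map (Option.map Subtype.val))).prod = q.1.2}) := by
    refine small_iUnion hreg hFfin fun q => ?_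
    refine small_iUnion hreg (small_lists hreg hsmall _) fun l => ?_
    by_cases hn : none ∈ l.1
    · have := hstep A hA.prop.1 hA.prop.2 q.1 q.2 (l.1.map (Option.map Subtype.val))
        (by simpa using l.2) (by simpa using hn) (by
          intro y hy
          simp only [List.mem_map] at hy
          obtain ⟨o, ho, h⟩ := hy
          cases o with
          | none => simp at h
          | some a => simp at h; rw [← h]; exact a.2)
      exact this.mono fun x hx => ⟨hx.1, hx.2.2⟩
    · have : {x | x ∈ P ∧ none ∈ l.1 ∧ (ev x (l.1.map (Option.map Subtype.val))).prod = q.1.2} = ∅ := by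
        ext x; simp [hn]
      rw [this]
      exact small_of_finite hreg Set.finite_empty
  refine (small_union hreg hsmall hbad).mono ?_
  intro x hx
  by_cases hxA : x ∈ A
  · exact Or.inl hxA
  · right
    by_contra hgood
    apply hxA
    have hle : insert x A ≤ A := hA.le_of_ge (y := insert x A) ⟨?_, ?_⟩ (Set.subset_insert x A)
    · exact hle (Set.mem_insert x A)
    · exact Set.insert_subset hx hA.prop.1
    · intro q hq l hl hm hprod
      by_cases hxl : x ∈ l
      · apply hgood
        simp only [Set.mem_iUnion]
        refine ⟨⟨q, hq⟩, ⟨l.map (fun y => if h : y ∈ A then some ⟨y, h⟩ else none), by simpa using hl⟩,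
          hx, ?_, ?_⟩
        · simp only [List.mem_map]
          exact ⟨x, hxl, by simp [hxA]⟩
        · have : ev x ((l.map (fun y => if h : y ∈ A then some (⟨y, h⟩ : A) else none)).map
              (Option.map Subtype.val)) = l := by
            unfold ev
            rw [List.map_map, List.map_map]
            conv_rhs => rw [← List.map_id l]
            refine List.map_congr_left fun y hy => ?_
            rcases hm y hy with h | h
            · subst h; simp [hxA]
            · simp [h]
          simp only
          rw [this]; exact hprod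
      · refine hA.prop.2 q hq l hl (fun y hy => ?_) hprod
        rcases hm y hy with h | h
        · subst h; exact absurd hy hxl
        · exact h

end Pool.Shelah
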